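import Pool.Agent.Helper49.CDC.Defs
import Pool.Agent.Helper49.CDC.Final

/-!
# Cycles in finite multigraphs: tools for the rooted graph lemma (MP_7cf8d2_co)
-/

set_option autoImplicit false
open Classical

namespace Pool.Agent.Helper89.GL

open Pool.Agent.Helper49.CDC

variable {V E : Type*}

/-- number of edges of `F` at `v` -/
noncomputable def deg (ends : E → Sym2 V) (F : Set E) (v : V) : ℕ :=
  {e | e ∈ F ∧ v ∈ ends e}.ncard

/-- the edge `e` leaves the vertex set `D` -/
def Cr (ends : E → Sym2 V) (D : Set V) (e : E) : Prop :=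
  ∃ a b, a ∈ D ∧ b ∉ D ∧ ends e = s(a, b)

/-- joined by a walk with edges in `F` -/
def JF (ends : E → Sym2 V) (F : Set E) : V → V → Prop :=
  Relation.ReflTransGen (fun a b => ∃ e ∈ F, ends e = s(a, b))

theorem ends_ex (ends : E → Sym2 V) (e : E) : ∃ a b, ends e = s(a, b) := by
  generalize ends e = p
  induction p with
  | _ a b => exact ⟨a, b, rfl⟩

theorem JF.refl (ends : E → Sym2 V) (F : Set E) (a : V) : JF ends F a a :=
  Relation.ReflTransGen.refl

theorem JF.trans {ends : E → Sym2 V} {F : Set E} {a b c : V} (h1 : JF ends F a b)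
    (h2 : JF ends F b c) : JF ends F a c :=
  Relation.ReflTransGen.trans h1 h2

theorem JF.edge {ends : E → Sym2 V} {F : Set E} {a b : V} {e : E} (he : e ∈ F)
    (h : ends e = s(a, b)) : JF ends F a b :=
  Relation.ReflTransGen.single ⟨e, he, h⟩

theorem JF.symm {ends : E → Sym2 V} {F : Set E} {a b : V} (h : JF ends F a b) :
    JF ends F b a := by
  induction h with
  | refl => exact JF.refl _ _ _
  | tail _ h ih =>
    obtain ⟨e, he, h2⟩ := h
    exact JF.trans (JF.edge he (by rw [h2, Sym2.eq_swap])) ih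

theorem JF.mono {ends : E → Sym2 V} {F F' : Set E} (hF : F ⊆ F') {a b : V}
    (h : JF ends F a b) : JF ends F' a b := by
  induction h with
  | refl => exact JF.refl _ _ _
  | tail _ h ih =>
    obtain ⟨e, he, h2⟩ := h
    exact JF.trans ih (JF.edge (hF he) h2)

/-- a set closed under the edges of `F` contains the classes it meets -/
theorem JF.closed {ends : E → Sym2 V} {F : Set E} {D : Set V}
    (hD : ∀ e ∈ F, ¬ Cr ends D e) {a b : V} (h : JF ends F a b) (ha : a ∈ D) : b ∈ D := by
  induction h with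
  | refl => exact ha
  | @tail b c _ h ih =>
    obtain ⟨e, he, h2⟩ := h
    by_contra hc
    exact hD e he ⟨b, c, ih, hc, h2⟩

theorem JF.not_cr {ends : E → Sym2 V} {F : Set E} (a : V) {e : E} (he : e ∈ F) :
    ¬ Cr ends {b | JF ends F a b} e := by
  rintro ⟨x, y, hx, hy, h⟩
  exact hy (JF.trans hx (JF.edge he h))

/-- handshake -/
theorem handshake [Fintype V] [Fintype E] {ends : E → Sym2 V} (hl : ∀ e, ¬ (ends e).IsDiag)
    (F : Set E) (D : Finset V) :
    ∑ v ∈ D, deg ends F v = 2 * {e | e ∈ F ∧ ∀ v ∈ ends e, v ∈ D}.ncard +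
      {e | e ∈ F ∧ Cr ends (D : Set V) e}.ncard := by
  have h1 : ∀ v, deg ends F v = ∑ e ∈ Finset.univ.filter (fun e => e ∈ F), if v ∈ ends e then 1 else 0 := by
    intro v
    unfold deg
    rw [Finset.sum_ite, Finset.sum_const_zero, add_zero, Finset.sum_const, smul_eq_mul, mul_one,
      Finset.filter_filter, ← Set.ncard_coe_finset]
    congr 1
    ext e
    simp
  have h2 : {e | e ∈ F ∧ ∀ v ∈ ends e, v ∈ D}.ncard =
      ∑ e ∈ Finset.univ.filter (fun e => e ∈ F), if (∀ v ∈ ends e, v ∈ D) then 1 else 0 := by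
    rw [Finset.sum_ite, Finset.sum_const_zero, add_zero, Finset.sum_const, smul_eq_mul, mul_one,
      Finset.filter_filter, ← Set.ncard_coe_finset]
    congr 1
    ext e
    simp
  have h3 : {e | e ∈ F ∧ Cr ends (D : Set V) e}.ncard =
      ∑ e ∈ Finset.univ.filter (fun e => e ∈ F), if Cr ends (D : Set V) e then 1 else 0 := by
    rw [Finset.sum_ite, Finset.sum_const_zero, add_zero, Finset.sum_const, smul_eq_mul, mul_one,
      Finset.filter_filter, ← Set.ncard_coe_finset]
    congr 1
    ext e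
    simp
  rw [Finset.sum_congr rfl (fun v _ => h1 v), Finset.sum_comm, h2, h3, Finset.mul_sum,
    ← Finset.sum_add_distrib]
  refine Finset.sum_congr rfl fun e _ => ?_
  obtain ⟨a, b, hab⟩ := ends_ex ends e
  have hne : a ≠ b := by
    intro h
    apply hl e
    rw [hab, h]
    exact Sym2.mk_isDiag_iff.2 rfl
  have h4 : ∑ v ∈ D, (if v ∈ ends e then 1 else 0) = (if a ∈ D then 1 else 0) + (if b ∈ D then 1 else 0) := by
    have h5 : ∀ v, (if v ∈ ends e then 1 else 0) = (if v = a then 1 else 0) + (if v = b then 1 else 0) := by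
      intro v
      have hm : v ∈ ends e ↔ v = a ∨ v = b := by
        rw [hab]
        exact Sym2.mem_iff
      by_cases h6 : v = a
      · subst h6
        simp [hm, hne]
      · by_cases h7 : v = b
        · subst h7
          simp [hm, h6]
        · simp [hm, h6, h7]
    rw [Finset.sum_congr rfl (fun v _ => h5 v), Finset.sum_add_distrib, Finset.sum_ite_eq',
      Finset.sum_ite_eq']
  have h6 : (∀ v ∈ ends e, v ∈ D) ↔ a ∈ D ∧ b ∈ D := by
    rw [hab]
    simp
  have h7 : Cr ends (D : Set V) e ↔ (a ∈ D ∧ b ∉ D) ∨ (b ∈ D ∧ a ∉ D) := by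
    constructor
    · rintro ⟨x, y, hx, hy, h⟩
      rw [hab] at h
      rcases Sym2.eq_iff.1 h with ⟨rfl, rfl⟩ | ⟨rfl, rfl⟩
      · exact Or.inl ⟨hx, hy⟩
      · exact Or.inr ⟨hx, hy⟩
    · rintro (⟨h8, h9⟩ | ⟨h8, h9⟩)
      · exact ⟨a, b, h8, h9, hab⟩
      · exact ⟨b, a, h8, h9, by rw [hab, Sym2.eq_swap]⟩
  rw [h4]
  by_cases h8 : a ∈ D <;> by_cases h9 : b ∈ D <;> simp [h6, h7, h8, h9]

/-- an edge at a vertex `a` leads to another vertex -/
theorem other {ends : E → Sym2 V} {e : E} {a : V} (h : a ∈ ends e) : ∃ b, ends e = s(a, b) := by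
  obtain ⟨b, hb⟩ := Sym2.mem_iff_exists.1 h
  exact ⟨b, hb⟩

/-- all degrees different from `1`: there is a cycle -/
theorem exists_cycle [Finite V] [Finite E] {ends : E → Sym2 V} (hl : ∀ e, ¬ (ends e).IsDiag)
    {F : Set E} (hne : F.Nonempty) (hd : ∀ v, deg ends F v ≠ 1) :
    ∃ C, C ⊆ F ∧ IsCycle ends C := by
  -- the next dart
  have hnext : ∀ d : {d : V × E // d.2 ∈ F ∧ d.1 ∈ ends d.2},
      ∃ d' : {d : V × E // d.2 ∈ F ∧ d.1 ∈ ends d.2},
        ends d.1.2 = s(d.1.1, d'.1.1) ∧ d'.1.2 ≠ d.1.2 := by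
    rintro ⟨⟨a, e⟩, heF, hae⟩
    obtain ⟨b, hb⟩ := other hae
    have hbe : b ∈ ends e := by
      rw [hb]
      exact Sym2.mem_mk_right _ _
    have h1 : ∃ e', (e' ∈ F ∧ b ∈ ends e') ∧ e' ≠ e := by
      by_contra hcon
      push Not at hcon
      apply hd b
      unfold deg
      rw [Set.ncard_eq_one]
      refine ⟨e, ?_⟩
      ext e'
      simp only [Set.mem_setOf_eq, Set.mem_singleton_iff]
      constructor
      · intro h
        exact hcon e' h
      · rintro rfl
        exact ⟨heF, hbe⟩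
    obtain ⟨e', he', hne'⟩ := h1
    exact ⟨⟨⟨b, e'⟩, he'⟩, hb, hne'⟩
  choose nx hnx1 hnx2 using hnext
  obtain ⟨e0, he0⟩ := hne
  obtain ⟨a0, b0, hab0⟩ := ends_ex ends e0
  let d0 : {d : V × E // d.2 ∈ F ∧ d.1 ∈ ends d.2} :=
    ⟨(a0, e0), he0, by simp [hab0]⟩
  let sq : ℕ → {d : V × E // d.2 ∈ F ∧ d.1 ∈ ends d.2} := fun i => nx^[i] d0
  let v : ℕ → V := fun i => (sq i).1.1
  let ee : ℕ → E := fun i => (sq i).1.2
  have hs : ∀ i, sq (i + 1) = nx (sq i) := by
    intro i
    exact Function.iterate_succ_apply' nx i d0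
  have he1 : ∀ i, ends (ee i) = s(v i, v (i + 1)) := by
    intro i
    have := hnx1 (sq i)
    rw [← hs i] at this
    exact this
  have he2 : ∀ i, ee (i + 1) ≠ ee i := by
    intro i
    have := hnx2 (sq i)
    rw [← hs i] at this
    exact this
  have heF : ∀ i, ee i ∈ F := fun i => (sq i).2.1
  have hvne : ∀ i, v i ≠ v (i + 1) := by
    intro i h
    apply hl (ee i)
    rw [he1 i, h]
    exact Sym2.mk_isDiag_iff.2 rfl
  have hrep : ∃ j, ∃ i, i < j ∧ v i = v j := by
    obtain ⟨i, j, hij, h⟩ := Finite.exists_ne_map_eq_of_infinite v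
    rcases lt_or_gt_of_ne hij with h1 | h1
    · exact ⟨j, i, h1, h⟩
    · exact ⟨i, j, h1, h.symm⟩
  obtain ⟨i, hij, hvij⟩ := Nat.find_spec hrep
  set j := Nat.find hrep with hj
  have hinj : ∀ k l, k < j → l < j → v k = v l → k = l := by
    intro k l hk hl' h
    rcases lt_trichotomy k l with h1 | h1 | h1
    · exact absurd ⟨k, h1, h⟩ (Nat.find_min hrep hl')
    · exact h1
    · exact absurd ⟨l, h1, h.symm⟩ (Nat.find_min hrep hk)
  obtain ⟨n, hn⟩ : ∃ n, j = i + n := ⟨j - i, by omega⟩
  have hn2 : 2 ≤ n := by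
    by_contra hlt
    have : n = 1 := by omega
    subst this
    apply hvne i
    rw [hvij, hn]
  haveI : NeZero n := ⟨by omega⟩
  have hval : ∀ k : ZMod n, ends (ee (i + k.val)) = s(v (i + k.val), v (i + (k + 1).val)) := by
    intro k
    rw [he1]
    have hk := ZMod.val_lt k
    by_cases h1 : k.val + 1 < n
    · have h2 : (k + 1).val = k.val + 1 := by
        have h3 : Fact (1 < n) := ⟨by omega⟩
        rw [ZMod.val_add_of_lt, ZMod.val_one]
        rw [ZMod.val_one]
        exact h1
      rw [h2]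
      rfl
    · have h2 : k.val + 1 = n := by omega
      have h3 : k + 1 = 0 := by
        have h4 : ((k.val + 1 : ℕ) : ZMod n) = 0 := by rw [h2]; simp
        rw [Nat.cast_add, ZMod.natCast_zmod_val] at h4
        simpa using h4
      rw [h3, ZMod.val_zero, add_zero, add_assoc, h2, ← hn, hvij]
  refine ⟨Set.range (fun k : ZMod n => ee (i + k.val)), ?_, n, fun k => v (i + k.val),
    fun k => ee (i + k.val), hn2, ?_, ?_, hval, rfl⟩
  · rintro _ ⟨k, rfl⟩
    exact heF _
  · intro k l hkl
    have hk := ZMod.val_lt k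
    have hl' := ZMod.val_lt l
    have h1 := hinj (i + k.val) (i + l.val) (by omega) (by omega) hkl
    apply ZMod.val_injective
    omega
  · -- edges are distinct
    intro k l hkl
    have hk := ZMod.val_lt k
    have hl' := ZMod.val_lt l
    by_contra hne'
    have hvk : k.val ≠ l.val := fun h => hne' (ZMod.val_injective n h)
    -- the same edge, so the same ends
    have h1 : s(v (i + k.val), v (i + (k + 1).val)) = s(v (i + l.val), v (i + (l + 1).val)) := by
      rw [← hval k, ← hval l]
      exact congrArg ends hkl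
    have hinjz : ∀ a b : ZMod n, v (i + a.val) = v (i + b.val) → a = b := by
      intro a b hab
      have ha := ZMod.val_lt a
      have hb := ZMod.val_lt b
      have h2 := hinj (i + a.val) (i + b.val) (by omega) (by omega) hab
      apply ZMod.val_injective
      omega
    rcases Sym2.eq_iff.1 h1 with ⟨h2, _⟩ | ⟨h2, h3⟩
    · exact hne' (hinjz _ _ h2)
    · have h4 := hinjz _ _ h2
      have h5 := hinjz _ _ h3
      -- k = l + 1, k + 1 = l, so 2 = 0 and n = 2
      have h6 : (2 : ZMod n) = 0 := by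
        have h7 : l + 1 + 1 = l := by rw [← h4, h5]
        have h8 : l + (1 + 1) = l + 0 := by rw [← add_assoc, h7, add_zero]
        have h9 := add_left_cancel h8
        rw [← h9]
        norm_num
      have h7 : n = 2 := by
        have h8 : ((2 : ℕ) : ZMod n) = 0 := by exact_mod_cast h6
        rw [ZMod.natCast_eq_zero_iff] at h8
        exact le_antisymm (Nat.le_of_dvd (by norm_num) h8) hn2
      -- consecutive edges
      have h8 : k.val = 0 ∧ l.val = 1 ∨ k.val = 1 ∧ l.val = 0 := by omega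
      rcases h8 with ⟨h9, h10⟩ | ⟨h9, h10⟩
      · apply he2 i
        have := hkl
        simp only [h9, h10] at this
        exact this.symm
      · apply he2 i
        have := hkl
        simp only [h9, h10] at this
        exact this

end Pool.Agent.Helper89.GL
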