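import Pool.Agent.Helper89.GL.Cyc

/-!
# Cycles in finite multigraphs, second file: degrees of a cycle, cuts, a cycle through a given
edge, leaves of forests
-/

set_option autoImplicit false
open Classical

namespace Pool.Agent.Helper89.GL

open Pool.Agent.Helper49.CDC

variable {V E : Type*}

theorem mem_of_ends {ends : E → Sym2 V} {e : E} {a b : V} (h : ends e = s(a, b)) : a ∈ ends e := by
  rw [h]
  exact Sym2.mem_mk_left _ _

theorem mem_of_ends' {ends : E → Sym2 V} {e : E} {a b : V} (h : ends e = s(a, b)) : b ∈ ends e := by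
  rw [h]
  exact Sym2.mem_mk_right _ _

theorem ne_of_ends {ends : E → Sym2 V} (hl : ∀ e, ¬ (ends e).IsDiag) {e : E} {a b : V}
    (h : ends e = s(a, b)) : a ≠ b := by
  rintro rfl
  apply hl e
  rw [h]
  exact Sym2.mk_isDiag_iff.2 rfl

theorem eq_or_of_mem {ends : E → Sym2 V} {e : E} {a b c : V} (h : ends e = s(a, b))
    (hc : c ∈ ends e) : c = a ∨ c = b := by
  rw [h] at hc
  exact Sym2.mem_iff.1 hc

theorem deg_mono [Finite E] {ends : E → Sym2 V} {F F' : Set E} (h : F ⊆ F') (v : V) :
    deg ends F v ≤ deg ends F' v :=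
  Set.ncard_le_ncard (fun _ he => ⟨h he.1, he.2⟩) (Set.toFinite _)

theorem deg_pos [Finite E] {ends : E → Sym2 V} {F : Set E} {v : V} {e : E} (he : e ∈ F)
    (hv : v ∈ ends e) : 0 < deg ends F v :=
  (Set.ncard_pos (Set.toFinite _)).2 ⟨e, he, hv⟩

theorem exists_of_deg_pos {ends : E → Sym2 V} {F : Set E} {v : V}
    (h : deg ends F v ≠ 0) : ∃ e ∈ F, v ∈ ends e := by
  obtain ⟨e, he⟩ := Set.nonempty_of_ncard_ne_zero h
  exact ⟨e, he.1, he.2⟩

theorem cycle_deg [Finite E] {ends : E → Sym2 V} {C : Set E} (hC : IsCycle ends C) {v : V}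
    (hv : v ∈ verts ends C) : deg ends C v = 2 := by
  have := Fintype.ofFinite E
  have h := cycle_two hC v hv
  rw [← h]
  unfold deg
  rw [← Set.ncard_coe_finset]
  congr 1
  ext e
  simp [and_comm]

theorem deg_zero {ends : E → Sym2 V} {C : Set E} {v : V}
    (hv : v ∉ verts ends C) : deg ends C v = 0 := by
  unfold deg
  have : {e | e ∈ C ∧ v ∈ ends e} = ∅ := by
    ext e
    simp only [Set.mem_ofPred_eq, Set.mem_empty_iff_false, iff_false, not_and]
    intro h1 h2
    exact hv ⟨e, h1, h2⟩
  rw [this, Set.ncard_empty]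

theorem cycle_even [Finite E] {ends : E → Sym2 V} {C : Set E} (hC : IsCycle ends C) (v : V) :
    Even (deg ends C v) := by
  by_cases hv : v ∈ verts ends C
  · rw [cycle_deg hC hv]
    decide
  · rw [deg_zero hv]
    decide

theorem cycle_nonempty {ends : E → Sym2 V} {C : Set E} (hC : IsCycle ends C) : C.Nonempty := by
  obtain ⟨n, v, e, hn, _, _, _, hr⟩ := hC
  exact ⟨e 0, by rw [← hr]; exact ⟨0, rfl⟩⟩

/-- every cut meets a cycle in an even number of edges -/
theorem cycle_cut [Finite V] [Finite E] {ends : E → Sym2 V} (hl : ∀ e, ¬ (ends e).IsDiag)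
    {C : Set E} (hev : ∀ v, Even (deg ends C v)) (D : Set V) :
    Even {e | e ∈ C ∧ Cr ends D e}.ncard := by
  have := Fintype.ofFinite E
  have := Fintype.ofFinite V
  have h0 : ((D.toFinite.toFinset : Finset V) : Set V) = D := Set.Finite.coe_toFinset _
  have h := handshake hl C (D.toFinite.toFinset)
  rw [h0] at h
  have h1 : Even (∑ v ∈ D.toFinite.toFinset, deg ends C v) :=
    Finset.even_sum _ fun v _ => hev v
  rw [h] at h1
  exact (Nat.even_add.1 h1).1 (even_two_mul _)

/-- the ends of an edge of a cycle are joined in the rest of the cycle -/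
theorem cycle_edge_joined [Finite V] [Finite E] {ends : E → Sym2 V} (hl : ∀ e, ¬ (ends e).IsDiag)
    {C : Set E} (hev : ∀ v, Even (deg ends C v)) {e : E} (he : e ∈ C) {a b : V}
    (hab : ends e = s(a, b)) : JF ends (C \ {e}) a b := by
  by_contra hcon
  have h := cycle_cut hl hev {x | JF ends (C \ {e}) a x}
  have h1 : {e' | e' ∈ C ∧ Cr ends {x | JF ends (C \ {e}) a x} e'} = {e} := by
    ext e'
    simp only [Set.mem_ofPred_eq, Set.mem_singleton_iff]
    constructor
    · rintro ⟨h2, h3⟩
      by_contra h4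
      exact JF.not_cr a (show e' ∈ C \ {e} from ⟨h2, h4⟩) h3
    · rintro rfl
      exact ⟨he, a, b, JF.refl _ _ _, hcon, hab⟩
  rw [h1, Set.ncard_singleton] at h
  exact absurd h (by decide)

/-- any two vertices of a cycle are joined in the cycle minus an edge -/
theorem cycle_joined [Finite V] [Finite E] {ends : E → Sym2 V} (hl : ∀ e, ¬ (ends e).IsDiag)
    {C : Set E} (hC : IsCycle ends C) {e : E} (he : e ∈ C) {a b : V}
    (ha : a ∈ verts ends C) (hb : b ∈ verts ends C) : JF ends (C \ {e}) a b := by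
  obtain ⟨c, hc⟩ := cycle_const hC (fun v => if JF ends (C \ {e}) a v then 1 else 0) (by
    intro e' he' u w huw
    have h1 : JF ends (C \ {e}) u w := by
      by_cases h2 : e' = e
      · subst h2
        exact cycle_edge_joined hl (cycle_even hC) he' huw
      · exact JF.edge (show e' ∈ C \ {e} from ⟨he', h2⟩) huw
    have h3 : JF ends (C \ {e}) a u ↔ JF ends (C \ {e}) a w :=
      ⟨fun h => h.trans h1, fun h => h.trans h1.symm⟩
    by_cases h4 : JF ends (C \ {e}) a u
    · simp [h4, h3.1 h4]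
    · have h5 : ¬ JF ends (C \ {e}) a w := fun h => h4 (h3.2 h)
      simp [h4, h5])
  have h1 := hc a ha
  have h2 := hc b hb
  rw [← h1] at h2
  by_contra hcon
  have h3 : JF ends (C \ {e}) a a := JF.refl _ _ _
  simp [hcon, h3] at h2

/-- a cycle contains no smaller nonempty set without vertices of degree one -/
theorem cycle_minimal [Finite E] {ends : E → Sym2 V}
    {C : Set E} (hC : IsCycle ends C) {D : Set E} (hD : D ⊆ C) (hne : D.Nonempty)
    (hdeg : ∀ v, deg ends D v ≠ 1) : D = C := by
  have h0 : ∀ v ∈ verts ends D, ∀ e ∈ C, v ∈ ends e → e ∈ D := by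
    intro v hv e he hve
    have h1 : deg ends D v ≠ 0 := by
      obtain ⟨e', he', hv'⟩ := hv
      exact (deg_pos he' hv').ne'
    have h2 : deg ends C v = 2 := cycle_deg hC ⟨e, he, hve⟩
    have h3 : 2 ≤ deg ends D v := by
      have := hdeg v
      omega
    have h4 : {e | e ∈ D ∧ v ∈ ends e} = {e | e ∈ C ∧ v ∈ ends e} := by
      apply Set.eq_of_subset_of_ncard_le (fun _ h => And.intro (hD h.1) h.2) _ (Set.toFinite _)
      show deg ends C v ≤ deg ends D v
      omega
    have h5 : e ∈ {e | e ∈ C ∧ v ∈ ends e} := ⟨he, hve⟩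
    rw [← h4] at h5
    exact h5.1
  obtain ⟨c, hc⟩ := cycle_const hC (fun v => if v ∈ verts ends D then 1 else 0) (by
    intro e he u w huw
    have h1 : u ∈ verts ends D ↔ w ∈ verts ends D := by
      constructor
      · intro h
        exact ⟨e, h0 u h e he (mem_of_ends huw), mem_of_ends' huw⟩
      · intro h
        exact ⟨e, h0 w h e he (mem_of_ends' huw), mem_of_ends huw⟩
    by_cases h2 : u ∈ verts ends D
    · simp [h2, h1.1 h2]
    · have h3 : w ∉ verts ends D := fun h => h2 (h1.2 h)
      simp [h2, h3])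
  obtain ⟨e0, he0⟩ := hne
  obtain ⟨a0, b0, hab0⟩ := ends_ex ends e0
  have ha0 : a0 ∈ verts ends D := ⟨e0, he0, mem_of_ends hab0⟩
  have ha1 : a0 ∈ verts ends C := ⟨e0, hD he0, mem_of_ends hab0⟩
  have hc1 := hc a0 ha1
  apply Set.Subset.antisymm hD
  intro e he
  obtain ⟨a, b, hab⟩ := ends_ex ends e
  have ha : a ∈ verts ends C := ⟨e, he, mem_of_ends hab⟩
  have h2 := hc a ha
  rw [← hc1] at h2
  by_cases h3 : a ∈ verts ends D
  · exact h0 a h3 e he (mem_of_ends hab)
  · simp [h3, ha0] at h2

/-- removing an edge whose ends stay joined does not change `JF` -/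
theorem JF.remove {ends : E → Sym2 V} {F : Set E} {e : E} {a b : V} (hab : ends e = s(a, b))
    (h : JF ends (F \ {e}) a b) {x y : V} (hxy : JF ends F x y) : JF ends (F \ {e}) x y := by
  induction hxy with
  | refl => exact JF.refl _ _ _
  | @tail u w _ h2 ih =>
    obtain ⟨e', he', h3⟩ := h2
    by_cases h4 : e' = e
    · subst h4
      rw [hab] at h3
      rcases Sym2.eq_iff.1 h3 with ⟨rfl, rfl⟩ | ⟨rfl, rfl⟩
      · exact ih.trans h
      · exact ih.trans h.symm
    · exact ih.trans (JF.edge (show e' ∈ F \ {e} from ⟨he', h4⟩) h3)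

/-- the first edge of a walk -/
theorem JF.first {ends : E → Sym2 V} {F : Set E} {a b : V} (h : JF ends F a b) (hne : a ≠ b) :
    ∃ e ∈ F, a ∈ ends e := by
  rcases Relation.ReflTransGen.cases_head h with h | ⟨c, ⟨e, he, h2⟩, _⟩
  · exact absurd h hne
  · exact ⟨e, he, mem_of_ends h2⟩

/-- a cycle through a given edge whose ends are joined otherwise -/
theorem cycle_through [Finite V] [Finite E] {ends : E → Sym2 V} (hl : ∀ e, ¬ (ends e).IsDiag)
    {F : Set E} {f : E} (hf : f ∉ F) {p q : V} (hpq : ends f = s(p, q)) (h : JF ends F p q) :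
    ∃ C, IsCycle ends C ∧ f ∈ C ∧ C ⊆ insert f F := by
  have hne : p ≠ q := ne_of_ends hl hpq
  -- minimal set joining p and q
  obtain ⟨W, ⟨hWF, hW⟩, hmin⟩ := WellFounded.has_min
    (measure (fun W : Set E => W.ncard)).wf {W : Set E | W ⊆ F ∧ JF ends W p q}
    ⟨F, Set.Subset.rfl, h⟩
  have hmin' : ∀ W', W' ⊆ W → W' ≠ W → ¬ JF ends W' p q := by
    intro W' h1 h2 h3
    refine hmin W' ⟨h1.trans hWF, h3⟩ ?_
    exact Set.ncard_lt_ncard (h1.ssubset_of_ne h2) (Set.toFinite _)
  have hfW : f ∉ W := fun h => hf (hWF h)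
  have hdeg : ∀ v, deg ends (insert f W) v ≠ 1 := by
    intro v hv
    unfold deg at hv
    obtain ⟨g, hg⟩ := Set.ncard_eq_one.1 hv
    have hg1 : g ∈ {e | e ∈ insert f W ∧ v ∈ ends e} := by rw [hg]; rfl
    have hg2 : ∀ e ∈ insert f W, v ∈ ends e → e = g := by
      intro e h1 h2
      have : e ∈ {e | e ∈ insert f W ∧ v ∈ ends e} := ⟨h1, h2⟩
      rw [hg] at this
      exact this
    obtain ⟨e1, he1, hp1⟩ := hW.first hne
    obtain ⟨e2, he2, hq2⟩ := hW.symm.first hne.symm
    have hvp : v ≠ p := by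
      rintro rfl
      have h3 := hg2 e1 (Or.inr he1) hp1
      have h4 := hg2 f (Or.inl rfl) (mem_of_ends hpq)
      rw [h3, ← h4] at he1
      exact hfW he1
    have hvq : v ≠ q := by
      rintro rfl
      have h3 := hg2 e2 (Or.inr he2) hq2
      have h4 := hg2 f (Or.inl rfl) (mem_of_ends' hpq)
      rw [h3, ← h4] at he2
      exact hfW he2
    have hgW : g ∈ W := by
      rcases hg1.1 with h5 | h5
      · exfalso
        rcases eq_or_of_mem (h5 ▸ hpq) hg1.2 with h6 | h6
        · exact hvp h6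
        · exact hvq h6
      · exact h5
    obtain ⟨w, hw⟩ := other hg1.2
    refine hmin' (W \ {g}) Set.sdiff_subset (fun h => ?_) ?_
    · rw [← h] at hgW
      exact hgW.2 rfl
    · -- the class of p
      have hvD : ¬ JF ends (W \ {g}) p v := by
        intro h5
        obtain ⟨e3, he3, hv3⟩ := h5.symm.first hvp
        exact he3.2 (hg2 e3 (Or.inr he3.1) hv3)
      by_cases hwD : JF ends (W \ {g}) p w
      · have h6 := JF.closed (D := {x | JF ends (W \ {g}) p x ∨ x = v}) (ends := ends) (F := W)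
          (by
            rintro e he ⟨x, y, hx, hy, hxy⟩
            by_cases h7 : e = g
            · subst h7
              rw [hw] at hxy
              rcases Sym2.eq_iff.1 hxy with ⟨h8, h9⟩ | ⟨h8, h9⟩
              · exact hy (Or.inl (h9 ▸ hwD))
              · exact hy (Or.inr h8.symm)
            · rcases hx with hx | hx
              · exact hy (Or.inl (hx.trans (JF.edge (show e ∈ W \ {g} from ⟨he, h7⟩) hxy)))
              · subst hx
                exact h7 (hg2 e (Or.inr he) (mem_of_ends hxy))) hW (Or.inl (JF.refl _ _ _))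
        rcases h6 with h6 | h6
        · exact h6
        · exact absurd h6.symm hvq
      · exact JF.closed (D := {x | JF ends (W \ {g}) p x}) (ends := ends) (F := W)
          (by
            rintro e he ⟨x, y, hx, hy, hxy⟩
            by_cases h7 : e = g
            · subst h7
              rw [hw] at hxy
              rcases Sym2.eq_iff.1 hxy with ⟨h8, h9⟩ | ⟨h8, h9⟩
              · exact hvD (h8 ▸ hx)
              · exact hwD (h9 ▸ hx)
            · exact hy (hx.trans (JF.edge (show e ∈ W \ {g} from ⟨he, h7⟩) hxy)))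
          hW (JF.refl _ _ _)
  obtain ⟨C, hCs, hC⟩ := exists_cycle hl ⟨f, Or.inl rfl⟩ hdeg
  refine ⟨C, hC, ?_, hCs.trans (Set.insert_subset_insert hWF)⟩
  by_contra hfC
  have hCW : C ⊆ W := by
    intro e he
    rcases hCs he with h1 | h1
    · exact absurd (h1 ▸ he) hfC
    · exact h1
  obtain ⟨e, he⟩ := cycle_nonempty hC
  obtain ⟨a, b, hab⟩ := ends_ex ends e
  have h1 := cycle_edge_joined hl (cycle_even hC) he hab
  have h2 : JF ends (W \ {e}) a b := h1.mono (fun x hx => And.intro (hCW hx.1) hx.2)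
  refine hmin' (W \ {e}) Set.sdiff_subset (fun h => ?_) (JF.remove hab h2 hW)
  have h3 := hCW he
  rw [← h] at h3
  exact h3.2 rfl

/-- a forest has a leaf different from a given vertex of positive degree, in its component -/
theorem leaf_away [Finite V] [Finite E] {ends : E → Sym2 V} (hl : ∀ e, ¬ (ends e).IsDiag) :
    ∀ (n : ℕ) (F : Set E), F.ncard = n → (∀ C, C ⊆ F → ¬ IsCycle ends C) → ∀ a : V,
      deg ends F a ≠ 0 → ∃ x, x ≠ a ∧ deg ends F x = 1 ∧ JF ends F a x := by
  intro n
  induction n with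
  | zero =>
    intro F hF _ a ha
    obtain ⟨e, he, _⟩ := exists_of_deg_pos ha
    rw [Set.ncard_eq_zero (Set.toFinite _)] at hF
    rw [hF] at he
    exact absurd he (Set.notMem_empty e)
  | succ n ih =>
    intro F hF hac a ha
    obtain ⟨e, he, hae⟩ := exists_of_deg_pos ha
    obtain ⟨b, hb⟩ := other hae
    have hab : a ≠ b := ne_of_ends hl hb
    by_cases h0 : deg ends (F \ {e}) b = 0
    · refine ⟨b, hab.symm, ?_, JF.edge he hb⟩
      unfold deg
      rw [Set.ncard_eq_one]
      refine ⟨e, ?_⟩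
      ext e'
      simp only [Set.mem_ofPred_eq, Set.mem_singleton_iff]
      constructor
      · rintro ⟨h1, h2⟩
        by_contra h3
        exact (deg_pos (show e' ∈ F \ {e} from ⟨h1, h3⟩) h2).ne' h0
      · rintro rfl
        exact ⟨he, mem_of_ends' hb⟩
    · obtain ⟨x, hxb, hx1, hx2⟩ := ih (F \ {e}) (by
        rw [Set.ncard_sdiff_singleton_of_mem he, hF]
        rfl) (fun C hC => hac C (hC.trans Set.sdiff_subset)) b h0
      have hxa : x ≠ a := by
        rintro rfl
        obtain ⟨C, hC, _, hCs⟩ := cycle_through hl (F := F \ {e}) (f := e)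
          (fun h => h.2 rfl) hb hx2.symm
        refine hac C (hCs.trans ?_) hC
        intro y hy
        rcases hy with hy | hy
        · rw [hy]
          exact he
        · exact hy.1
      refine ⟨x, hxa, ?_, (JF.edge he hb).trans (hx2.mono Set.sdiff_subset)⟩
      rw [← hx1]
      unfold deg
      congr 1
      ext e'
      simp only [Set.mem_ofPred_eq, Set.mem_sdiff, Set.mem_singleton_iff]
      constructor
      · rintro ⟨h1, h2⟩
        refine ⟨⟨h1, ?_⟩, h2⟩
        rintro rfl
        rcases eq_or_of_mem hb h2 with h3 | h3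
        · exact hxa h3
        · exact hxb h3
      · rintro ⟨⟨h1, _⟩, h2⟩
        exact ⟨h1, h2⟩

/-- a nonempty forest has two leaves in the same component -/
theorem two_leaves [Finite V] [Finite E] {ends : E → Sym2 V} (hl : ∀ e, ¬ (ends e).IsDiag)
    {F : Set E} (hac : ∀ C, C ⊆ F → ¬ IsCycle ends C) {a : V} (ha : deg ends F a ≠ 0) :
    ∃ x y, x ≠ y ∧ deg ends F x = 1 ∧ deg ends F y = 1 ∧ JF ends F a x ∧ JF ends F x y := by
  obtain ⟨x, hxa, hx1, hx2⟩ := leaf_away hl _ F rfl hac a ha
  obtain ⟨y, hyx, hy1, hy2⟩ := leaf_away hl _ F rfl hac x (by omega)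
  exact ⟨x, y, hyx.symm, hx1, hy1, hx2, hy2⟩

end Pool.Agent.Helper89.GL
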